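import Pool.Agent.Y128.CY.Stm
import Pool.Agent.Y128.SJ.Val

/-!
Project CY (owner helper128), job CY-NUM: valuations of determinants give Hodge characters.
Adapted from `Pool/Agent/Y128/SJ/Val.lean`.
-/

set_option autoImplicit false

namespace Pool.Agent.Y884.CY

open Polynomial Pool.Agent.Y128.CY

/-- A relation between the values of rational polynomials at the powers of a root of unity holds
for all roots of unity of the same order. -/
theorem transfer {L : ℕ} (hL : 0 < L) {K F : Type} [Field K] [CharZero K] [Field F]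
    [CharZero F] {z : K} (hz : IsPrimitiveRoot z L) {w : F} (hw : IsPrimitiveRoot w L)
    {Q : Type} [Fintype Q] (D : Q → ℚ[X]) (e : Q → ℕ) (N : ℕ) (c : ℚ)
    (h : ∏ q, (aeval (z ^ e q) (D q)) ^ N = algebraMap ℚ K c) :
    ∏ q, (aeval (w ^ e q) (D q)) ^ N = algebraMap ℚ F c := by
  let P : ℚ[X] := ∏ q, ((D q).comp (X ^ e q)) ^ N - Polynomial.C c
  have hP : ∀ {F : Type} [Field F] [CharZero F] (x : F),
      aeval x P = ∏ q, (aeval (x ^ e q) (D q)) ^ N - algebraMap ℚ F c := by
    intro F _ _ x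
    simp only [P, map_sub, map_prod, map_pow, aeval_C, aeval_comp, aeval_X]
  have h1 : aeval z P = 0 := by rw [hP, h, sub_self]
  have h2 : cyclotomic L ℚ ∣ P := by
    rw [cyclotomic_eq_minpoly_rat hz hL]
    exact minpoly.dvd ℚ z h1
  obtain ⟨R, hR⟩ := h2
  have h3 : aeval w P = 0 := by
    rw [hR, map_mul]
    have h4 : aeval w (cyclotomic L ℚ) = 0 := by
      rw [cyclotomic_eq_minpoly_rat hw hL]
      exact minpoly.aeval _ _
    rw [h4, zero_mul]
  rw [hP] at h3
  exact sub_eq_zero.1 h3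

theorem t_NUM : S_NUM := by
  intro K _ _ ι _ _ C q a N d hq w z D ha hN hw hz hval Q _ κ h hd s hs
  have hL : 0 < level C := by
    rw [Nat.pos_iff_ne_zero, level, Ne, Finset.lcm_eq_zero_iff]
    rintro ⟨c, -, hc⟩
    have := (C c).three_le
    omega
  have hdv : ∀ c, (C c).degree ∣ level C := fun c => Finset.dvd_lcm (Finset.mem_univ c)
  have hws : IsPrimitiveRoot (w ^ s) (level C) := hw.pow_of_coprime _ hs
  have h1 := transfer hL hz hws (fun x => D (κ x).1)
    (fun x => level C / (C (κ x).1).degree * ((κ x).2 : ZMod (C (κ x).1).degree).val) N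
    ((q : ℚ) ^ (a * N * d)) (by
      rw [map_pow, map_natCast, ← h]
      refine Finset.prod_congr rfl fun x _ => ?_
      rw [evn, pow_mul])
  set u : Q → ℕ := fun x => s * ((κ x).2 : ZMod (C (κ x).1).degree).val with hu
  have h2 : ∀ x, (w ^ s) ^ (level C / (C (κ x).1).degree *
      ((κ x).2 : ZMod (C (κ x).1).degree).val) =
      (w ^ (level C / (C (κ x).1).degree)) ^ u x := by
    intro x
    rw [← pow_mul, ← pow_mul]
    congr 1
    rw [hu]
    ring
  have hcop : ∀ x, (u x).Coprime (C (κ x).1).degree := by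
    intro x
    refine Nat.Coprime.mul_left (hs.coprime_dvd_right (hdv _)) ?_
    exact ZMod.val_coe_unit_coprime (κ x).2
  simp only [h2, map_pow, map_natCast] at h1
  have hq0 : (q : ℚ_[q]) ^ (a * N * d) ≠ 0 := pow_ne_zero _ (Nat.cast_ne_zero.2 hq.out.ne_zero)
  have hne : ∀ x, aeval ((w ^ (level C / (C (κ x).1).degree)) ^ u x) (D (κ x).1) ≠ 0 := by
    intro x hx
    apply hq0
    rw [← h1]
    exact Finset.prod_eq_zero (Finset.mem_univ x) (by rw [hx, zero_pow hN.ne'])
  have h3 := congrArg Padic.valuation h1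
  rw [Pool.Agent.Y128.SJ.val_prod _ _ fun x _ => pow_ne_zero _ (hne x)] at h3
  rw [Padic.valuation_pow, Padic.valuation_p, mul_one] at h3
  have h3' : ∑ x, ((N : ℚ) * a) * (C (κ x).1).hodge ((u x : ℕ) : ZMod (C (κ x).1).degree) =
      ((N : ℚ) * a) * d := by
    have h4 : ((∑ x, (aeval ((w ^ (level C / (C (κ x).1).degree)) ^ u x) (D (κ x).1) ^ N).valuation :
        ℤ) : ℚ) = ((a * N * d : ℕ) : ℤ) := by
      rw [h3]
    push_cast at h4
    have h5 : ∀ x, ((aeval ((w ^ (level C / (C (κ x).1).degree)) ^ u x) (D (κ x).1) ^ N).valuation :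
        ℚ) = ((N : ℚ) * a) * (C (κ x).1).hodge ((u x : ℕ) : ZMod (C (κ x).1).degree) := by
      intro x
      rw [Padic.valuation_pow]
      push_cast
      rw [hval _ _ (hcop x)]
      ring
    rw [← Finset.sum_congr rfl fun x _ => h5 x, h4]
    ring
  rw [← Finset.mul_sum] at h3'
  have hNa : ((N : ℚ) * a) ≠ 0 := by positivity
  have h6 := mul_left_cancel₀ hNa h3'
  have h7 : ∀ x, ((u x : ℕ) : ZMod (C (κ x).1).degree) =
      (s : ZMod (C (κ x).1).degree) * ((κ x).2 : ZMod (C (κ x).1).degree) := by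
    intro x
    have : NeZero (C (κ x).1).degree := ⟨by have := (C (κ x).1).three_le; omega⟩
    rw [hu]
    push_cast
    rw [ZMod.natCast_zmod_val]
  have h8 : ∑ x, (∑ t, frac ((s : ZMod (C (κ x).1).degree) *
      ((κ x).2 : ZMod (C (κ x).1).degree) * (C (κ x).1).exponent t) - 1) = d := by
    rw [← h6]
    refine Finset.sum_congr rfl fun x _ => ?_
    rw [Covering.hodge, h7]
  have h9 : (2 : ℚ) * d = ∑ x, (((C (κ x).1).branchPoints : ℚ) - 2) := by
    have h10 : ((2 * d : ℕ) : ℚ) = ((∑ x, (C (κ x).1).rank : ℕ) : ℚ) := by rw [hd]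
    push_cast at h10
    rw [h10]
    refine Finset.sum_congr rfl fun x _ => ?_
    rw [Covering.rank, Nat.cast_sub (by have := (C (κ x).1).five_le; omega)]
    norm_num
  rw [Finset.sum_sub_distrib] at h8 h9
  simp only [Finset.sum_const, Finset.card_univ, nsmul_eq_mul, mul_one] at h8 h9
  linarith

end Pool.Agent.Y884.CY
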